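import Pool.Agent.H73.TS.Targets

/-!
Module DD of the board ts_modules.
-/

open MeasureTheory Set

namespace Pool.Agent.H51.TS

open Pool.Agent.H73.TS

theorem pf_DD (hSS : T_SS) (hSL : T_SL) (hQB : T_QB) : T_DD := by
  intro c hc hq
  obtain ⟨_, hodd, herlt, hergt, hqd, _, hqpos, hqmono, hq0⟩ := hQB
  have hder : ∀ x ∈ Set.Icc (0 : ℝ) c, HasDerivAt
      (fun x : ℝ => Real.log (qf (-x)) + 15 * Real.log (16 - qf (-x)) - Real.log (qf x)
        - 15 * Real.log (16 - qf x))
      (-(2 * Real.pi * (1 / 2 - er x)) / qf (-x)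
        + 15 * ((2 * Real.pi * (1 / 2 - er x)) / (16 - qf (-x)))
        - (2 * Real.pi * (1 / 2 + er x)) / qf x
        - 15 * (-(2 * Real.pi * (1 / 2 + er x)) / (16 - qf x))) x := by
    intro x hx
    have hxc : qf x ≤ qf c := hqmono.monotone hx.2
    have hmx : qf (-x) ≤ 1 := by
      rw [← hq0]; exact hqmono.monotone (by linarith [hx.1])
    have h1 : HasDerivAt (fun x : ℝ => qf (-x)) (-(2 * Real.pi * (1 / 2 - er x))) x := by
      have h := (hqd (-x)).comp x (hasDerivAt_neg x)
      have e : 2 * Real.pi * (1 / 2 + er (-x)) * -1 = -(2 * Real.pi * (1 / 2 - er x)) := by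
        rw [hodd x]; ring
      rw [e] at h
      exact h
    have h2 := hqd x
    have hp1 : qf (-x) ≠ 0 := (hqpos (-x)).ne'
    have hp2 : (16 : ℝ) - qf (-x) ≠ 0 := by linarith
    have hp3 : qf x ≠ 0 := (hqpos x).ne'
    have hp4 : (16 : ℝ) - qf x ≠ 0 := by
      have : 0 < 16 - qf x := by linarith
      exact this.ne'
    have d1 := h1.log hp1
    have h16 : HasDerivAt (fun x : ℝ => 16 - qf (-x)) (2 * Real.pi * (1 / 2 - er x)) x := by
      have := h1.const_sub 16
      rw [neg_neg] at this
      exact this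
    have d2 := (h16.log hp2).const_mul 15
    have d3 := h2.log hp3
    have h17 : HasDerivAt (fun x : ℝ => 16 - qf x) (-(2 * Real.pi * (1 / 2 + er x))) x :=
      h2.const_sub 16
    have d4 := (h17.log hp4).const_mul 15
    exact ((d1.add d2).sub d3).sub d4
  have hmono : MonotoneOn
      (fun x : ℝ => Real.log (qf (-x)) + 15 * Real.log (16 - qf (-x)) - Real.log (qf x)
        - 15 * Real.log (16 - qf x)) (Set.Icc 0 c) := by
    apply monotoneOn_of_deriv_nonneg (convex_Icc 0 c)
    · intro x hx
      exact (hder x hx).continuousAt.continuousWithinAt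
    · intro x hx
      rw [interior_Icc] at hx
      exact (hder x ⟨hx.1.le, hx.2.le⟩).differentiableAt.differentiableWithinAt
    · intro x hx
      rw [interior_Icc] at hx
      rw [(hder x ⟨hx.1.le, hx.2.le⟩).deriv]
      have hxc : qf x < 16 := lt_of_le_of_lt (hqmono.monotone hx.2.le) hq
      have hmx : qf (-x) ≤ 1 := by
        rw [← hq0]; exact hqmono.monotone (by linarith [hx.1])
      have hSt : St x := by
        by_cases h : Real.pi * x ^ 2 ≤ 2
        · exact hSS x hx.1.le h
        · exact hSL x hx.1 (not_le.mp h).le hxc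
      unfold St at hSt
      have q1 := hqpos (-x)
      have q2 := hqpos x
      have q3 : 0 < 16 - qf (-x) := by linarith
      have q4 : 0 < 16 - qf x := by linarith
      have hpi := Real.pi_pos
      have key : -(2 * Real.pi * (1 / 2 - er x)) / qf (-x)
        + 15 * ((2 * Real.pi * (1 / 2 - er x)) / (16 - qf (-x)))
        - (2 * Real.pi * (1 / 2 + er x)) / qf x
        - 15 * (-(2 * Real.pi * (1 / 2 + er x)) / (16 - qf x)) =
        (480 * Real.pi) * ((1 / 2 + er x) * (qf x - 1) * qf (-x) * (1 + (1 - qf (-x)) / 15) -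
          (1 / 2 - er x) * (1 - qf (-x)) * qf x * (1 - (qf x - 1) / 15)) /
          (qf (-x) * (16 - qf (-x)) * qf x * (16 - qf x)) := by
        field_simp
        ring
      rw [key]
      apply div_nonneg
      · apply mul_nonneg (by positivity)
        linarith
      · positivity
  have h0 := hmono (left_mem_Icc.mpr hc) (right_mem_Icc.mpr hc) hc
  simp only [neg_zero] at h0
  have hmc : qf (-c) ≤ 1 := by
    rw [← hq0]; exact hqmono.monotone (by linarith)
  have q1 := hqpos (-c)
  have q2 := hqpos c
  have q3 : 0 < 16 - qf (-c) := by linarith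
  have q4 : 0 < 16 - qf c := by linarith
  have h1 : Real.log (qf c * (16 - qf c) ^ 15) ≤ Real.log (qf (-c) * (16 - qf (-c)) ^ 15) := by
    rw [Real.log_mul q2.ne' (pow_pos q4 15).ne', Real.log_mul q1.ne' (pow_pos q3 15).ne',
      Real.log_pow, Real.log_pow]
    push_cast
    linarith
  exact (Real.log_le_log_iff (by positivity) (by positivity)).mp h1

end Pool.Agent.H51.TS
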